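import Pool.Agent.L5helper75.SH.Final

/-! # Higher-order freeness of the Shi arrangements (MP_5ef5ec_co, Q1)

For every field `K` of characteristic zero and all `m ≥ 3`, `ℓ ≥ 2`, the arrangement `Shi_ℓ` is
`m`-free if and only if `ℓ = 2`.

The definitions (`ShiFree.partialPow`, `ShiFree.opModule`, `ShiFree.arrModule`, `ShiFree.IsMFree`,
`ShiFree.shi`) are in `Pool/Agent/L5helper75/SH/Defs.lean`. -/

namespace Pool.Agent.Results.MP_5ef5ec_co.ShiFreeIff

open ShiFree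

/-- **The answer to Q1.** Let `K` be a field of characteristic zero, `m ≥ 3` and `ℓ ≥ 2`. Then
`Shi_ℓ` is `m`-free, i.e. `D^(m)(Shi_ℓ)` is a free module over `K[x_1, …, x_ℓ, z]`, if and only if
`ℓ = 2`. -/
theorem result (K : Type*) [Field K] [CharZero K] (m ℓ : ℕ) (hm : 3 ≤ m) (hℓ : 2 ≤ ℓ) :
    IsMFree K m (shi K ℓ) ↔ ℓ = 2 :=
  ShiFree.main m ℓ hm hℓ

end Pool.Agent.Results.MP_5ef5ec_co.ShiFreeIff
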